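import Pool.Agent.Helper156.BnG.Fin

/-!
# The bidirectional `k`-neighbour graph on `ℤ^d` percolates for `k` of order `√d`

The percolation probability `θ^B(k, d)` is positive whenever `400 d ≤ k²` (and `k ≤ 2 d`). In
particular `θ^B(d, d) > 0` for every `d ≥ 400`, so it is not true that `θ^B(k, d) = 0` for all
`k ≤ d`.

Proof. Second moment method for the paths whose `t`-th step is `+e_i` with `i` in the
`(t mod 16)`-th of sixteen disjoint blocks of `2 h` coordinates, `h = ⌊d / 32⌋`. Given the words of
two such paths, the probability that both are open is at most the product of the two probabilities
times `((2 d - 1) / (k - 1))²` to the number of common edges. Two independent random words have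
equal positions at time `l` with probability at most `∏_j φ(m_j)`, `m_j` the number of visits of
block `j` and `φ(m) = C(2m, m) / 4^m`; the sum of this over `l` is at most `9 / 4`, while a common
position leads to a common edge with probability `1 / (2 h)` only. So the mean of the weight is
bounded, long open paths have probabilities bounded below, and compactness gives an infinite one.
-/

set_option autoImplicit false

open Pool.Agent.Helper156.BnG

/-- The percolation probability `theta k d` of the bidirectional `k`-neighbour graph on `ℤ^d` is
positive for all `d ≥ 1` and `k ≤ 2 d` with `k² ≥ 400 d`; the case `k = d ≥ 400` is included. -/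
theorem Pool.Agent.Results.MP_e5a0e3_pr.SquareRootThreshold.result :
    ∀ k d : ℕ, 1 ≤ d → k ≤ 2 * d → 400 * d ≤ k ^ 2 → 0 < theta k d :=
  theta_pos
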